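import Pool.Agent.Helper78.ZM.Stmts

/-!
Project ZM, module 4: the complex Hessian of a smooth plurisubharmonic function is positive
semidefinite.
-/

set_option autoImplicit false

open MeasureTheory Filter Topology
open scoped ContDiff Real ENNReal ComplexOrder

namespace Pool.Agent.Helper7.ZM

open Pool.Agent.Helper78.ZM

/-- second order Taylor formula -/
theorem taylor2 {E : Type*} [NormedAddCommGroup E] [NormedSpace ℝ E] {f : E → ℝ} {x : E}
    (hf : ContDiffAt ℝ 2 f x) (ε : ℝ) (hε : 0 < ε) :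
    ∃ δ > 0, ∀ y : E, ‖y‖ < δ →
      |f (x + y) - f x - fderiv ℝ f x y - (1 / 2) * fderiv ℝ (fderiv ℝ f) x y y|
        ≤ ε * ‖y‖ ^ 2 := by
  set A := fderiv ℝ (fderiv ℝ f) x with hA
  have hsym : ∀ u v, A u v = A v u :=
    fun u v => (hf.isSymmSndFDerivAt (by simp)).eq u v
  have hA' : HasFDerivAt (fderiv ℝ f) A x :=
    ((hf.fderiv_right (m := 1) (by norm_num)).differentiableAt (by norm_num)).hasFDerivAt
  have hdiff : ∀ᶠ z in 𝓝 x, DifferentiableAt ℝ f z := by
    have h1 := hf.eventually (by simp)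
    filter_upwards [h1] with z hz
    exact hz.differentiableAt (by norm_num)
  have hlit := (hasFDerivAt_iff_isLittleO_nhds_zero.1 hA').def hε
  have hdiff' : ∀ᶠ z in 𝓝 (0 : E), DifferentiableAt ℝ f (x + z) := by
    have hc : Tendsto (fun z : E => x + z) (𝓝 0) (𝓝 x) := by
      have h1 : Continuous fun z : E => x + z := by fun_prop
      simpa using h1.tendsto 0
    exact hc.eventually hdiff
  obtain ⟨δ, hδ, hball⟩ := Metric.eventually_nhds_iff.1 (hlit.and hdiff')
  refine ⟨δ, hδ, fun y hy => ?_⟩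
  -- the remainder
  let h : E → ℝ := fun z => f (x + z) - fderiv ℝ f x z - (1 / 2) * A z z
  have hh : ∀ z ∈ Metric.closedBall (0 : E) ‖y‖,
      HasFDerivWithinAt h (fderiv ℝ f (x + z) - fderiv ℝ f x - A z)
        (Metric.closedBall (0 : E) ‖y‖) z := by
    intro z hz
    have hz' : dist z 0 < δ := lt_of_le_of_lt (Metric.mem_closedBall.1 hz) hy
    have h1 : HasFDerivAt (fun z => f (x + z)) (fderiv ℝ f (x + z)) z := by
      have h2 := (hball hz').2.hasFDerivAt
      have h3 := HasFDerivAt.comp z h2 ((hasFDerivAt_id z).const_add x)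
      rw [ContinuousLinearMap.comp_id] at h3
      exact h3
    have h2 : HasFDerivAt (fun z => fderiv ℝ f x z) (fderiv ℝ f x) z :=
      (fderiv ℝ f x).hasFDerivAt
    have h3 : HasFDerivAt (fun z => (1 / 2 : ℝ) * A z z) (A z) z := by
      have h4 := (A.hasFDerivAt (x := z)).clm_apply (hasFDerivAt_id z)
      have h5 := h4.const_mul (1 / 2 : ℝ)
      refine h5.congr_fderiv ?_
      ext v
      have := hsym v z
      simp
      rw [this]; ring
    have h6 := ((h1.sub h2).sub h3)
    exact h6.hasFDerivWithinAt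
  have hb : ∀ z ∈ Metric.closedBall (0 : E) ‖y‖,
      ‖fderiv ℝ f (x + z) - fderiv ℝ f x - A z‖ ≤ ε * ‖y‖ := by
    intro z hz
    have hz' : dist z 0 < δ := lt_of_le_of_lt (Metric.mem_closedBall.1 hz) hy
    have h1 := (hball hz').1
    refine h1.trans ?_
    have h2 : ‖z‖ ≤ ‖y‖ := by simpa using hz
    exact mul_le_mul_of_nonneg_left h2 hε.le
  have hfin := (convex_closedBall (0 : E) ‖y‖).norm_image_sub_le_of_norm_hasFDerivWithin_le hh hb
    (Metric.mem_closedBall_self (norm_nonneg y)) (show y ∈ Metric.closedBall (0 : E) ‖y‖ by simp)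
  have e1 : h y - h 0 = f (x + y) - f x - fderiv ℝ f x y - (1 / 2) * A y y := by
    simp [h]; ring
  rw [e1, Real.norm_eq_abs, sub_zero] at hfin
  calc _ ≤ ε * ‖y‖ * ‖y‖ := hfin
    _ = ε * ‖y‖ ^ 2 := by ring

theorem integral_trig (c0 c1 c2 c3 c4 c5 : ℝ) :
    ∫ θ in (0 : ℝ)..(2 * π), (c0 + c1 * Real.cos θ + c2 * Real.sin θ + c3 * Real.cos θ ^ 2
      + c4 * (Real.sin θ * Real.cos θ) + c5 * Real.sin θ ^ 2) = 2 * π * (c0 + c3 / 2 + c5 / 2) := by
  have i0 : IntervalIntegrable (fun _ : ℝ => c0) volume 0 (2 * π) := intervalIntegrable_const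
  have i1 : IntervalIntegrable (fun θ : ℝ => c1 * Real.cos θ) volume 0 (2 * π) :=
    (by fun_prop : Continuous fun θ : ℝ => c1 * Real.cos θ).intervalIntegrable _ _
  have i2 : IntervalIntegrable (fun θ : ℝ => c2 * Real.sin θ) volume 0 (2 * π) :=
    (by fun_prop : Continuous fun θ : ℝ => c2 * Real.sin θ).intervalIntegrable _ _
  have i3 : IntervalIntegrable (fun θ : ℝ => c3 * Real.cos θ ^ 2) volume 0 (2 * π) :=
    (by fun_prop : Continuous fun θ : ℝ => c3 * Real.cos θ ^ 2).intervalIntegrable _ _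
  have i4 : IntervalIntegrable (fun θ : ℝ => c4 * (Real.sin θ * Real.cos θ)) volume 0 (2 * π) :=
    (by fun_prop : Continuous fun θ : ℝ => c4 * (Real.sin θ * Real.cos θ)).intervalIntegrable _ _
  have i5 : IntervalIntegrable (fun θ : ℝ => c5 * Real.sin θ ^ 2) volume 0 (2 * π) :=
    (by fun_prop : Continuous fun θ : ℝ => c5 * Real.sin θ ^ 2).intervalIntegrable _ _
  rw [intervalIntegral.integral_add ((((i0.add i1).add i2).add i3).add i4) i5,
    intervalIntegral.integral_add (((i0.add i1).add i2).add i3) i4,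
    intervalIntegral.integral_add ((i0.add i1).add i2) i3,
    intervalIntegral.integral_add (i0.add i1) i2,
    intervalIntegral.integral_add i0 i1,
    intervalIntegral.integral_const_mul, intervalIntegral.integral_const_mul,
    intervalIntegral.integral_const_mul, intervalIntegral.integral_const_mul,
    intervalIntegral.integral_const_mul, integral_cos, integral_sin, integral_cos_sq,
    integral_sin_sq, integral_sin_mul_cos₁, intervalIntegral.integral_const]
  simp
  ring

theorem exp_smul {n : ℕ} (θ t : ℝ) (v : Cn n) :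
    Complex.exp (θ * Complex.I) • (t • v)
      = (t * Real.cos θ) • v + (t * Real.sin θ) • (Complex.I • v) := by
  funext j
  simp only [Pi.smul_apply, Pi.add_apply, smul_eq_mul, Complex.real_smul]
  rw [Complex.exp_mul_I]
  push_cast
  ring

/-- the Laplacian on a complex line is nonnegative -/
theorem lap_nonneg {n : ℕ} {V : Set (Cn n)} {f : Cn n → ℝ} (hV : IsOpen V)
    (hf : ContDiffOn ℝ ∞ f V) (hpsh : IsPSH (fun x => (f x : EReal)) V) {x : Cn n} (hx : x ∈ V)
    (v : Cn n) :
    0 ≤ fderiv ℝ (fderiv ℝ f) x v v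
      + fderiv ℝ (fderiv ℝ f) x (Complex.I • v) (Complex.I • v) := by
  have hfx : ContDiffAt ℝ 2 f x :=
    ((hf x hx).contDiffAt (hV.mem_nhds hx)).of_le (by norm_cast)
  set A := fderiv ℝ (fderiv ℝ f) x with hA
  set L := fderiv ℝ f x with hL
  set S := A v v + A (Complex.I • v) (Complex.I • v) with hS
  suffices H : ∀ ε : ℝ, 0 < ε → 0 ≤ S / 4 + ε * ‖v‖ ^ 2 by
    by_contra hneg
    push Not at hneg
    have hv : 0 < ‖v‖ ^ 2 + 1 := by positivity
    have h1 := H (-S / (8 * (‖v‖ ^ 2 + 1))) (by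
      apply div_pos <;> linarith)
    have h2 : -S / (8 * (‖v‖ ^ 2 + 1)) * ‖v‖ ^ 2 ≤ -S / 8 := by
      rw [div_mul_eq_mul_div, div_le_div_iff₀ (by positivity) (by norm_num)]
      nlinarith [sq_nonneg ‖v‖]
    linarith
  intro ε hε
  obtain ⟨δ, hδ, htay⟩ := taylor2 hfx ε hε
  obtain ⟨ρ, hρ, hball⟩ := Metric.isOpen_iff.1 hV x hx
  -- the radius
  set t := min δ ρ / (2 * (‖v‖ + 1)) with ht
  have hv0 : 0 ≤ ‖v‖ := norm_nonneg v
  have ht0 : 0 < t := by
    rw [ht]; have := lt_min hδ hρ; positivity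
  have htv : t * ‖v‖ < min δ ρ := by
    have h1 : 0 < min δ ρ := lt_min hδ hρ
    rw [ht, div_mul_eq_mul_div, div_lt_iff₀ (by positivity)]
    nlinarith
  have hdisc : ∀ ζ : ℂ, ‖ζ‖ ≤ 1 → x + ζ • (t • v) ∈ V := by
    intro ζ hζ
    apply hball
    rw [Metric.mem_ball, dist_eq_norm, add_sub_cancel_left, norm_smul, norm_smul,
      Real.norm_of_nonneg ht0.le]
    calc ‖ζ‖ * (t * ‖v‖) ≤ 1 * (t * ‖v‖) :=
          mul_le_mul_of_nonneg_right hζ (by positivity)
      _ < ρ := by rw [one_mul]; exact lt_of_lt_of_le htv (min_le_right _ _)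
  have hmean := hpsh.2.2.2 x (t • v) hdisc
  set g : ℝ → ℝ := fun θ => (f x + ε * (t * ‖v‖) ^ 2) + (t * L v) * Real.cos θ
      + (t * L (Complex.I • v)) * Real.sin θ + (t ^ 2 / 2 * A v v) * Real.cos θ ^ 2
      + (t ^ 2 / 2 * (A v (Complex.I • v) + A (Complex.I • v) v)) * (Real.sin θ * Real.cos θ)
      + (t ^ 2 / 2 * A (Complex.I • v) (Complex.I • v)) * Real.sin θ ^ 2 with hg
  have hgc : Continuous g := by rw [hg]; fun_prop
  have hmaj : ∀ θ : ℝ, ((f (x + Complex.exp (θ * Complex.I) • (t • v)) : ℝ) : EReal) ≤ (g θ : EReal) := by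
    intro θ
    rw [EReal.coe_le_coe_iff]
    have hn : ‖Complex.exp (θ * Complex.I) • (t • v)‖ = t * ‖v‖ := by
      rw [norm_smul, norm_smul, Complex.norm_exp_ofReal_mul_I, one_mul,
        Real.norm_of_nonneg ht0.le]
    have h1 := htay (Complex.exp (θ * Complex.I) • (t • v))
      (by rw [hn]; exact lt_of_lt_of_le htv (min_le_left _ _))
    rw [hn] at h1
    have h2 := (abs_le.1 h1).2
    have e1 : L (Complex.exp (θ * Complex.I) • (t • v))
        = (t * L v) * Real.cos θ + (t * L (Complex.I • v)) * Real.sin θ := by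
      rw [exp_smul, map_add, map_smul, map_smul, smul_eq_mul, smul_eq_mul]; ring
    have e2 : (1 / 2) * A (Complex.exp (θ * Complex.I) • (t • v))
          (Complex.exp (θ * Complex.I) • (t • v))
        = (t ^ 2 / 2 * A v v) * Real.cos θ ^ 2
          + (t ^ 2 / 2 * (A v (Complex.I • v) + A (Complex.I • v) v)) * (Real.sin θ * Real.cos θ)
          + (t ^ 2 / 2 * A (Complex.I • v) (Complex.I • v)) * Real.sin θ ^ 2 := by
      rw [exp_smul]
      simp only [map_add, map_smul, add_apply, smul_apply, smul_eq_mul]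
      ring
    rw [e1, e2] at h2
    rw [hg]
    simp only
    linarith
  have h3 : mean (fun θ : ℝ => ((f (x + Complex.exp (θ * Complex.I) • (t • v)) : ℝ) : EReal))
      ≤ (((2 * π)⁻¹ * ∫ θ in (0 : ℝ)..(2 * π), g θ : ℝ) : EReal) := by
    unfold mean
    exact iInf_le_of_le g (iInf_le_of_le hgc (iInf_le_of_le hmaj le_rfl))
  have h4 := hmean.trans h3
  rw [EReal.coe_le_coe_iff] at h4
  rw [hg, integral_trig] at h4
  have hpi : (2 * π)⁻¹ * (2 * π * ((f x + ε * (t * ‖v‖) ^ 2) + (t ^ 2 / 2 * A v v) / 2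
      + (t ^ 2 / 2 * A (Complex.I • v) (Complex.I • v)) / 2))
      = f x + t ^ 2 * (S / 4 + ε * ‖v‖ ^ 2) := by
    have := Real.pi_pos.ne'
    rw [hS]
    field_simp
    ring
  rw [hpi] at h4
  have h5 : 0 ≤ t ^ 2 * (S / 4 + ε * ‖v‖ ^ 2) := by linarith
  have h6 : 0 < t ^ 2 := by positivity
  exact nonneg_of_mul_nonneg_right h5 h6

theorem vec_decomp {n : ℕ} (u : Cn n) :
    u = ∑ j, ((u j).re • (Pi.single j 1 : Cn n) + (u j).im • (Pi.single j Complex.I : Cn n)) := by
  funext k
  rw [Finset.sum_apply, Finset.sum_eq_single k]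
  · simp [Complex.re_add_im]
  · intro j _ hj
    simp [hj.symm]
  · simp

theorem form_expand {n : ℕ} (A : Cn n →L[ℝ] Cn n →L[ℝ] ℝ) (u : Cn n) :
    A u u = ∑ j, ∑ k, ((u j).re * (u k).re * A (Pi.single j 1) (Pi.single k 1)
      + (u j).re * (u k).im * A (Pi.single j 1) (Pi.single k Complex.I)
      + (u j).im * (u k).re * A (Pi.single j Complex.I) (Pi.single k 1)
      + (u j).im * (u k).im * A (Pi.single j Complex.I) (Pi.single k Complex.I)) := by
  conv_lhs => rw [vec_decomp u]
  simp only [map_sum, map_add, map_smul, sum_apply, add_apply, smul_apply,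
    smul_eq_mul, Finset.mul_sum, ← Finset.sum_add_distrib]
  rw [Finset.sum_comm]
  refine Finset.sum_congr rfl fun j _ => Finset.sum_congr rfl fun k _ => ?_
  ring

theorem z4 (h0 : Z0Stmt) : Z4Stmt := by
  intro n V f hV hf hpsh x hx
  have hfx : ContDiffAt ℝ 2 f x :=
    ((hf x hx).contDiffAt (hV.mem_nhds hx)).of_le (by norm_cast)
  have hherm := h0.2.2.1 n f x hfx
  refine Matrix.PosSemidef.of_dotProduct_mulVec_nonneg hherm fun w => ?_
  have him := hherm.im_star_dotProduct_mulVec_self w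
  rw [Complex.nonneg_iff]
  refine ⟨?_, ?_⟩
  swap
  · simpa using him.symm
  have hA' : HasFDerivAt (fderiv ℝ f) (fderiv ℝ (fderiv ℝ f) x) x :=
    ((hfx.fderiv_right (m := 1) (by norm_num)).differentiableAt (by norm_num)).hasFDerivAt
  set A := fderiv ℝ (fderiv ℝ f) x with hA
  have hD2 : ∀ u v, D2 f x u v = A u v := by
    intro u v
    have h1 := hA'.clm_apply (hasFDerivAt_const v x)
    unfold D2
    rw [h1.fderiv]
    simp
  set v : Cn n := fun j => (starRingEnd ℂ) (w j) with hv
  have hS := lap_nonneg hV hf hpsh hx v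
  rw [← hA] at hS
  rw [form_expand, form_expand] at hS
  have e : (star w ⬝ᵥ (Matrix.mulVec (levi f x) w)).re = (1 / 4) *
      ((∑ j, ∑ k, ((v j).re * (v k).re * A (Pi.single j 1) (Pi.single k 1)
      + (v j).re * (v k).im * A (Pi.single j 1) (Pi.single k Complex.I)
      + (v j).im * (v k).re * A (Pi.single j Complex.I) (Pi.single k 1)
      + (v j).im * (v k).im * A (Pi.single j Complex.I) (Pi.single k Complex.I)))
      + ∑ j, ∑ k, (((Complex.I • v) j).re * ((Complex.I • v) k).re * A (Pi.single j 1) (Pi.single k 1)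
      + ((Complex.I • v) j).re * ((Complex.I • v) k).im * A (Pi.single j 1) (Pi.single k Complex.I)
      + ((Complex.I • v) j).im * ((Complex.I • v) k).re * A (Pi.single j Complex.I) (Pi.single k 1)
      + ((Complex.I • v) j).im * ((Complex.I • v) k).im *
        A (Pi.single j Complex.I) (Pi.single k Complex.I))) := by
    rw [← Finset.sum_add_distrib, Finset.mul_sum]
    simp only [dotProduct, Matrix.mulVec, Finset.mul_sum, Complex.re_sum]
    refine Finset.sum_congr rfl fun j _ => ?_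
    rw [← Finset.sum_add_distrib, Finset.mul_sum]
    refine Finset.sum_congr rfl fun k _ => ?_
    simp only [levi, Matrix.of_apply, hD2, hv, Pi.star_apply, Pi.smul_apply, smul_eq_mul]
    simp only [Complex.mul_re, Complex.mul_im, Complex.add_re, Complex.add_im, Complex.ofReal_re,
      Complex.ofReal_im, Complex.I_re, Complex.I_im, Complex.star_def, Complex.conj_re,
      Complex.conj_im]
    norm_num
    ring
  rw [e]
  positivity

end Pool.Agent.Helper7.ZM
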